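import Mathlib
import Pool.Agent.H67.BF.SDef

/-!
# Finite groups as groups of multiple elements of `SL_n(F)`
-/

set_option autoImplicit false
set_option linter.unusedSectionVars false
set_option linter.unusedVariables false

namespace Pool.Agent.H37.BF

/-- the regular representation on `Fin k` -/
def ex_pi {H : Type} [Group H] {k : ℕ} (ε : H ≃ Fin k) : H →* Equiv.Perm (Fin k) where
  toFun y := ε.symm.trans ((Equiv.mulLeft y).trans ε)
  map_one' := by ext; simp
  map_mul' a b := by ext; simp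

lemma ex_pi_apply {H : Type} [Group H] {k : ℕ} (ε : H ≃ Fin k) (y : H) (i : Fin k) :
    ex_pi ε y i = ε (y * ε.symm i) := rfl

lemma ex_pi_inj {H : Type} [Group H] {k : ℕ} (ε : H ≃ Fin k) :
    Function.Injective (ex_pi ε) := by
  intro a b h
  have h1 := congrArg (fun σ : Equiv.Perm (Fin k) => σ (ε 1)) h
  simpa [ex_pi_apply] using h1

/-- `N` copies of a permutation of `Fin k` and fixed points -/
def ex_P {n N k l : ℕ} (E : Fin n ≃ (Fin N × Fin k) ⊕ Fin l) :
    Equiv.Perm (Fin k) →* Equiv.Perm (Fin n) where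
  toFun p := (E.trans (Equiv.Perm.sumCongr (Equiv.prodCongrRight fun _ : Fin N => p) 1)).trans
    E.symm
  map_one' := by
    apply Equiv.ext
    intro i
    have h1 : ∀ z : (Fin N × Fin k) ⊕ Fin l,
        Equiv.Perm.sumCongr (Equiv.prodCongrRight fun _ : Fin N => (1 : Equiv.Perm (Fin k))) 1 z
          = z := by
      rintro (⟨a, b⟩ | c) <;> rfl
    show E.symm (Equiv.Perm.sumCongr (Equiv.prodCongrRight
      fun _ : Fin N => (1 : Equiv.Perm (Fin k))) 1 (E i)) = i
    rw [h1, Equiv.symm_apply_apply]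
  map_mul' a b := by
    ext i
    simp only [Equiv.trans_apply, Equiv.Perm.mul_apply, Equiv.apply_symm_apply]
    rcases E i with ⟨j1, j2⟩ | j <;> simp

lemma ex_P_sign {n N k l : ℕ} (E : Fin n ≃ (Fin N × Fin k) ⊕ Fin l) (p : Equiv.Perm (Fin k)) :
    Equiv.Perm.sign (ex_P E p) = Equiv.Perm.sign p ^ N := by
  have h1 : ex_P E p = (E.trans (Equiv.Perm.sumCongr
    (Equiv.prodCongrRight fun _ : Fin N => p) 1)).trans E.symm := rfl
  rw [h1, Equiv.Perm.sign_trans_trans_symm, Equiv.Perm.sign_sumCongr,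
    Equiv.Perm.sign_prodCongrRight, Equiv.Perm.sign_one, mul_one]
  simp

lemma ex_P_inl {n N k l : ℕ} (E : Fin n ≃ (Fin N × Fin k) ⊕ Fin l) (p : Equiv.Perm (Fin k))
    (a : Fin N) (i : Fin k) :
    ex_P E p (E.symm (Sum.inl (a, i))) = E.symm (Sum.inl (a, p i)) := by
  show E.symm (Equiv.Perm.sumCongr (Equiv.prodCongrRight fun _ : Fin N => p) 1
    (E (E.symm (Sum.inl (a, i))))) = _
  rw [Equiv.apply_symm_apply]
  rfl

lemma ex_P_inr {n N k l : ℕ} (E : Fin n ≃ (Fin N × Fin k) ⊕ Fin l) (p : Equiv.Perm (Fin k))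
    (i : Fin l) :
    ex_P E p (E.symm (Sum.inr i)) = E.symm (Sum.inr i) := by
  show E.symm (Equiv.Perm.sumCongr (Equiv.prodCongrRight fun _ : Fin N => p) 1
    (E (E.symm (Sum.inr i)))) = _
  rw [Equiv.apply_symm_apply]
  rfl

/-- the permutations of `Fin n` attached to the elements of `H` are even -/
lemma ex_sign {H : Type} [Group H] [Finite H] {n N k l : ℕ} (ε : H ≃ Fin k)
    (E : Fin n ≃ (Fin N × Fin k) ⊕ Fin l) (hN : Nat.card H ∣ N) (y : H) :
    Equiv.Perm.sign (ex_P E (ex_pi ε y)) = 1 := by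
  obtain ⟨m, hm⟩ := hN
  have hy : y ^ N = 1 := by
    rw [hm, pow_mul, pow_card_eq_one', one_pow]
  rw [ex_P_sign, ← map_pow, ← map_pow, hy, map_one, map_one]

/-- the matrices -/
def ex_phi {H : Type} [Group H] [Finite H] (F : Type) [Field F] {n N k l : ℕ} (ε : H ≃ Fin k)
    (E : Fin n ≃ (Fin N × Fin k) ⊕ Fin l) (hN : Nat.card H ∣ N) :
    H →* Matrix.SpecialLinearGroup (Fin n) F where
  toFun y := ⟨((ex_P E (ex_pi ε y))⁻¹).permMatrix F, by
    rw [Matrix.det_permutation, Equiv.Perm.sign_inv, ex_sign ε E hN]; simp⟩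
  map_one' := by
    apply Subtype.ext
    show ((ex_P E (ex_pi ε 1))⁻¹).permMatrix F = 1
    rw [map_one, map_one, inv_one, Matrix.permMatrix_one]
  map_mul' a b := by
    apply Subtype.ext
    show ((ex_P E (ex_pi ε (a * b)))⁻¹).permMatrix F =
      ((ex_P E (ex_pi ε a))⁻¹).permMatrix F * ((ex_P E (ex_pi ε b))⁻¹).permMatrix F
    rw [map_mul, map_mul, mul_inv_rev, Matrix.permMatrix_mul]

lemma ex_phi_mulVec {H : Type} [Group H] [Finite H] (F : Type) [Field F] {n N k l : ℕ}
    (ε : H ≃ Fin k) (E : Fin n ≃ (Fin N × Fin k) ⊕ Fin l) (hN : Nat.card H ∣ N)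
    (y : H) (w : Fin n → F) (i : Fin n) :
    ((ex_phi F ε E hN y : Matrix.SpecialLinearGroup (Fin n) F) :
      Matrix (Fin n) (Fin n) F).mulVec w i = w (ex_P E (ex_pi ε y)⁻¹ i) := by
  show (((ex_P E (ex_pi ε y))⁻¹).permMatrix F).mulVec w i = _
  rw [Matrix.permMatrix_mulVec, ← map_inv]
  rfl

/-- the coordinates -/
def ex_e (F : Type) [Field F] {n N k l : ℕ} (E : Fin n ≃ (Fin N × Fin k) ⊕ Fin l) :
    (Fin n → F) ≃ₗ[F] (Fin N → Fin k → F) × (Fin l → F) where
  toFun w := (fun a i => w (E.symm (Sum.inl (a, i))), fun i => w (E.symm (Sum.inr i)))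
  map_add' v w := rfl
  map_smul' c w := rfl
  invFun v j := Sum.elim (fun x => v.1 x.1 x.2) (fun i => v.2 i) (E j)
  left_inv w := by
    funext j
    show Sum.elim (fun x : Fin N × Fin k => w (E.symm (Sum.inl (x.1, x.2))))
      (fun i => w (E.symm (Sum.inr i))) (E j) = w j
    rcases h : E j with ⟨a, i⟩ | i
    · show w (E.symm (Sum.inl (a, i))) = w j
      rw [← h, Equiv.symm_apply_apply]
    · show w (E.symm (Sum.inr i)) = w j
      rw [← h, Equiv.symm_apply_apply]
  right_inv v := by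
    refine Prod.ext ?_ ?_
    · funext a i
      show Sum.elim (fun x : Fin N × Fin k => v.1 x.1 x.2) (fun i => v.2 i)
        (E (E.symm (Sum.inl (a, i)))) = v.1 a i
      rw [Equiv.apply_symm_apply]
      rfl
    · funext i
      show Sum.elim (fun x : Fin N × Fin k => v.1 x.1 x.2) (fun i => v.2 i)
        (E (E.symm (Sum.inr i))) = v.2 i
      rw [Equiv.apply_symm_apply]
      rfl

lemma ex_e_apply (F : Type) [Field F] {n N k l : ℕ} (E : Fin n ≃ (Fin N × Fin k) ⊕ Fin l)
    (w : Fin n → F) :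
    ex_e F E w = (fun a i => w (E.symm (Sum.inl (a, i))), fun i => w (E.symm (Sum.inr i))) := rfl

/-- the linear map of a permutation -/
def ex_g (F : Type) [Field F] {k : ℕ} : Equiv.Perm (Fin k) →* ((Fin k → F) ≃ₗ[F] (Fin k → F)) where
  toFun p := LinearEquiv.funCongrLeft F F (p⁻¹ : Equiv.Perm (Fin k))
  map_one' := by
    apply LinearEquiv.ext
    intro v
    funext i
    show v ((1 : Equiv.Perm (Fin k))⁻¹ i) = v i
    rw [inv_one]
    rfl
  map_mul' a b := by
    apply LinearEquiv.ext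
    intro v
    funext i
    show v ((a * b)⁻¹ i) = v (b⁻¹ (a⁻¹ i))
    rw [mul_inv_rev]
    rfl

lemma ex_g_apply (F : Type) [Field F] {k : ℕ} (p : Equiv.Perm (Fin k)) (v : Fin k → F)
    (i : Fin k) : ex_g F p v i = v (p⁻¹ i) := rfl

/-- a matrix all of whose rows with index outside of the image of `x` vanish -/
lemma ex_rank {F : Type} [Field F] {n k l : ℕ} (E : Fin n ≃ (Fin k) ⊕ Fin l)
    (A : Matrix (Fin n) (Fin n) F) (hA : ∀ (i : Fin l) (j : Fin n), A (E.symm (Sum.inr i)) j = 0) :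
    A.rank ≤ k := by
  classical
  -- `A = B * C` with `C` the `k × n` matrix of the nonzero rows
  let B : Matrix (Fin n) (Fin k) F := Matrix.of fun i a => if i = E.symm (Sum.inl a) then 1 else 0
  let C : Matrix (Fin k) (Fin n) F := Matrix.of fun a j => A (E.symm (Sum.inl a)) j
  have h1 : A = B * C := by
    ext i j
    rw [Matrix.mul_apply]
    simp only [B, C, Matrix.of_apply, ite_mul, one_mul, zero_mul]
    rcases h : E i with a | b
    · have hi : i = E.symm (Sum.inl a) := by rw [← h, Equiv.symm_apply_apply]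
      rw [Finset.sum_eq_single a]
      · rw [if_pos hi, ← hi]
      · intro c _ hc
        rw [if_neg]
        intro h2
        rw [hi] at h2
        exact hc (Sum.inl_injective (E.symm.injective h2)).symm
      · intro h2
        exact absurd (Finset.mem_univ a) h2
    · have hi : i = E.symm (Sum.inr b) := by rw [← h, Equiv.symm_apply_apply]
      rw [hi, hA, Finset.sum_eq_zero]
      intro c _
      rw [if_neg]
      intro h2
      have := E.symm.injective h2
      cases this
  rw [h1]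
  calc (B * C).rank ≤ B.rank := Matrix.rank_mul_le_left B C
    _ ≤ Fintype.card (Fin k) := Matrix.rank_le_card_width B
    _ = k := Fintype.card_fin k

/-- Every finite group `H` is isomorphic to a group of multiple elements of `SL_n(F)`, with `N` a
multiple of `|H|`, as soon as `N |H| ≤ n`. -/
theorem exists_multiple (H : Type) [Group H] [Finite H] (F : Type) [Field F] (N n : ℕ)
    (hN0 : 0 < N) (hN : Nat.card H ∣ N) (hn : N * Nat.card H ≤ n) :
    ∃ φ : H →* Matrix.SpecialLinearGroup (Fin n) F, Function.Injective φ ∧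
      ∀ y : H, Pool.Agent.H67.BF.Multiple N (φ y) ∧
        ((φ y : Matrix (Fin n) (Fin n) F) - 1).rank ≤ N * Nat.card H := by
  classical
  set k := Nat.card H with hk
  let ε : H ≃ Fin k := Finite.equivFin H
  obtain ⟨l, hl⟩ : ∃ l, n = N * k + l := ⟨n - N * k, by omega⟩
  let E0 : Fin n ≃ Fin (N * k) ⊕ Fin l := (finCongr hl).trans finSumFinEquiv.symm
  let E : Fin n ≃ (Fin N × Fin k) ⊕ Fin l :=
    E0.trans (Equiv.sumCongr finProdFinEquiv.symm (Equiv.refl (Fin l)))
  have hE : ∀ i : Fin l, E.symm (Sum.inr i) = E0.symm (Sum.inr i) := fun i => rfl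
  refine ⟨ex_phi F ε E hN, ?_, ?_⟩
  · intro a b h1
    apply ex_pi_inj ε
    have h2 : (ex_pi ε a)⁻¹ = (ex_pi ε b)⁻¹ := by
      ext i
      have h3 := ex_phi_mulVec F ε E hN a
        (Pi.single (E.symm (Sum.inl ((⟨0, hN0⟩ : Fin N), (ex_pi ε a)⁻¹ i))) 1)
        (E.symm (Sum.inl ((⟨0, hN0⟩ : Fin N), i)))
      rw [h1, ex_phi_mulVec, ex_P_inl, ex_P_inl, Pi.single_eq_same] at h3
      by_contra hne
      rw [Pi.single_eq_of_ne] at h3
      · exact zero_ne_one h3
      · intro h4
        apply hne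
        have h5 := E.symm.injective h4
        have h6 := Sum.inl_injective h5
        have h7 := (Prod.mk.inj h6).2
        rw [h7]
    exact inv_injective h2
  · intro y
    refine ⟨⟨k, l, ex_e F E, ex_g F (ex_pi ε y), ?_, ?_⟩, ?_⟩
    · obtain ⟨m, hm⟩ := hN
      have hy : y ^ N = 1 := by
        rw [hm, pow_mul, hk, pow_card_eq_one', one_pow]
      rw [← map_pow, ← map_pow, hy, map_one, map_one]
    · intro w
      rw [ex_e_apply, ex_e_apply]
      refine Prod.ext ?_ ?_
      · funext a i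
        show (Matrix.mulVec _ w) _ = ex_g F (ex_pi ε y) (fun i => w (E.symm (Sum.inl (a, i)))) i
        rw [ex_phi_mulVec, ex_P_inl, ex_g_apply]
      · funext i
        show (Matrix.mulVec _ w) _ = w (E.symm (Sum.inr i))
        rw [ex_phi_mulVec, ex_P_inr]
    · apply ex_rank E0
      intro i j
      have h3 := ex_phi_mulVec F ε E hN y (Pi.single j 1) (E.symm (Sum.inr i))
      rw [ex_P_inr, Matrix.mulVec_single_one] at h3
      rw [Matrix.sub_apply, ← hE]
      have h4 : (ex_phi F ε E hN y : Matrix (Fin n) (Fin n) F) (E.symm (Sum.inr i)) j =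
          (Pi.single j (1 : F) : Fin n → F) (E.symm (Sum.inr i)) := h3
      rw [h4, Matrix.one_apply, Pi.single_apply, sub_self]

end Pool.Agent.H37.BF
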